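import Pool.Agent.Q283.EN.Stm3
import Pool.Agent.Q123.CE.FEND
import Pool.Agent.Q190.CE.EKA
import Pool.Agent.Q285.LK.CPL

/-!
# Project EN (helper283), job ECNV: the converse
-/

set_option autoImplicit false

namespace Pool.Agent.Q195.EN

open NumberField IsDedekindDomain WeierstrassCurve
open Pool.Agent.Q7.LK Pool.Agent.Q7.CE Pool.Agent.Q283.EN
open Pool.Agent.Q123.CE (IsC clP clP_ne cls_iff clP_add clP_theta theta_of_clP)
open Pool.Agent.Q285.CE (imP imP_ker imP3 imP_imP im_some isD_base)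
open Pool.Agent.Q190.CE (mkP TT tt tt_inj three_T nons_iff eqn_iff two_T mod_T tt_nat)
open Pool.Agent.TH841.SH.D (Coch Pt act Gal IsCoc IsCob LocTriv cob)
open Pool.Agent.TH841.NF.D (Sha IsShaCoc shaCoc)

/-! ## groups -/

/-- in a finite group the index of the image is the order of the kernel -/
theorem idx_range {G : Type} [AddCommGroup G] [Finite G] (θ : G →+ G) : θ.range.index = Nat.card θ.ker := by
  have h1 := θ.ker.card_mul_index
  have h2 := θ.range.card_mul_index
  rw [AddSubgroup.index_ker] at h1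
  have h3 : 0 < Nat.card θ.range := Nat.card_pos
  have h4 : Nat.card θ.range * θ.range.index = Nat.card θ.range * Nat.card θ.ker := by
    rw [h2, ← h1, mul_comm]
  exact Nat.eq_of_mul_eq_mul_left h3 h4

/-! ## points of order three -/

section pts

variable {F : Type} [Field F] {L : Type} [Field L] [Algebra F L] {D : F}

theorem x_zero_iff (h3 : (3 : L) ≠ 0) (hD : D ≠ 0) (P : Pt (ED D) L) :
    (P = 0 ∨ ∃ y h, P = Affine.Point.some 0 y h) → ∃ c : ZMod 3, P = tt D h3 hD c := by
  rintro (rfl | ⟨y, h, rfl⟩)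
  · exact ⟨0, by rw [tt, ZMod.val_zero, zero_smul]⟩
  · have h1 := (nons_iff h3 hD 0 y).1 h
    have h2 : y * (y + algebraMap F L D) = 0 := by linear_combination h1
    rcases mul_eq_zero.1 h2 with h4 | h4
    · subst h4
      refine ⟨1, ?_⟩
      have e : (1 : ZMod 3).val = 1 := rfl
      rw [tt, e, one_smul]
      rfl
    · have h5 : y = -(algebraMap F L D) := by linear_combination h4
      subst h5
      refine ⟨2, ?_⟩
      have e : (2 : ZMod 3).val = 2 := rfl
      obtain ⟨h', e'⟩ := two_T (F := F) (L := L) h3 hD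
      rw [tt, e, e']
      rfl

theorem three_kill (h3 : (3 : L) ≠ 0) (hD : D ≠ 0) (P : Pt (ED D) L)
    (h : P = 0 ∨ ∃ y h, P = Affine.Point.some 0 y h) : (3 : ℕ) • P = 0 := by
  obtain ⟨c, rfl⟩ := x_zero_iff h3 hD P h
  rw [tt, smul_comm, three_T, smul_zero]

end pts

section ker

variable {F : Type} [Field F] [CharZero F] {ω D : F}

theorem imP_TT (hD : D ≠ 0) (hω : ω ^ 2 + ω + 1 = 0) (h3 : (3 : F) ≠ 0) :
    imP hD hω F (TT D h3 hD) = TT D h3 hD := by
  show (Affine.Point.some (algebraMap F F ω * 0) 0 _ : ((ED D).baseChange F).toAffine.Point) =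
    Affine.Point.some 0 0 _
  rw [Affine.Point.some.injEq]
  exact ⟨mul_zero _, rfl⟩

/-- the endomorphism `1 - ω` over `F` -/
noncomputable def th (hD : D ≠ 0) (hω : ω ^ 2 + ω + 1 = 0) : Pt (ED D) F →+ Pt (ED D) F :=
  AddMonoidHom.id (Pt (ED D) F) - imP hD hω F

theorem card_ker (hD : D ≠ 0) (hω : ω ^ 2 + ω + 1 = 0) : Nat.card (th hD hω).ker = 3 := by
  have h3 : (3 : F) ≠ 0 := by norm_num
  have e1 : ((th hD hω).ker : Set (Pt (ED D) F)) = Set.range (tt D h3 hD : ZMod 3 → Pt (ED D) F) := by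
    ext P
    constructor
    · intro hP
      obtain ⟨c, hc⟩ := x_zero_iff h3 hD P (imP_ker hD hω F P hP)
      exact ⟨c, hc.symm⟩
    · rintro ⟨c, rfl⟩
      show th hD hω (tt D h3 hD c) = 0
      rw [tt, map_nsmul]
      have e2 : th hD hω (TT D h3 hD) = 0 := by
        show TT D h3 hD - imP hD hω F (TT D h3 hD) = 0
        rw [imP_TT, sub_self]
      rw [e2, smul_zero]
  have e2 : Nat.card (th hD hω).ker = Nat.card (Set.range (tt D h3 hD : ZMod 3 → Pt (ED D) F)) := by
    rw [← e1]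
    rfl
  rw [e2, ← Nat.card_congr (Equiv.ofInjective (tt D h3 hD : ZMod 3 → Pt (ED D) F) fun c c' h => tt_inj h3 hD h)]
  rw [Nat.card_eq_fintype_card, ZMod.card]

end ker

/-! ## the converse -/

theorem ecnv (hECOC : Pool.Agent.Q283.EN.S_ECOC) (hAEC : Pool.Agent.Q283.EN.S_AEC)
    (hFEND : Pool.Agent.Q7.CE.S_FEND) : Pool.Agent.Q283.EN.S_ECNV := by
  intro F _ _ ω D hω0 hD hT
  have hω : ω ^ 2 + ω + 1 = 0 := by
    have h1 : (ω - 1) * (ω ^ 2 + ω + 1) = 0 := by
      have := hω0.pow_eq_one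
      linear_combination this
    refine (mul_eq_zero.1 h1).resolve_left fun h2 => ?_
    exact hω0.ne_one (by norm_num) (sub_eq_zero.1 h2)
  obtain ⟨hfin, hsha⟩ := hT
  have hfin' : Finite (Pt (ED D) F) := hfin
  obtain ⟨-, -, -, -, -, -, hact⟩ := hFEND F ω D hω0 hD
  set θ := th hD hω with hθ
  have hidx : Nat.card (Pt (ED D) F ⧸ θ.range) = 3 := by
    have h1 := idx_range θ
    rw [card_ker hD hω] at h1
    exact h1
  let e : (Pt (ED D) F ⧸ θ.range) ≃ Fin 3 := Finite.equivFinOfCardEq hidx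
  let Q : Fin 3 → Pt (ED D) F := fun i => Quotient.out (e.symm i)
  have hQ : ∀ i, (QuotientAddGroup.mk (Q i) : Pt (ED D) F ⧸ θ.range) = e.symm i := fun i =>
    QuotientAddGroup.out_eq' _
  -- the classes of points congruent modulo the image of `1 - ω`
  have hcl : ∀ P P' : Pt (ED D) F, IsC (clP D P * clP D P' / clP D (P + P')) := fun P P' => clP_add hD F P P'
  have hne : ∀ P : Pt (ED D) F, clP D P ≠ 0 := fun P => clP_ne hD P
  have hsub : ∀ P P' : Pt (ED D) F, IsC (clP D (P - P') * clP D P' / clP D P) := fun P P' => by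
    have := hcl (P - P') P'
    rwa [sub_add_cancel] at this
  refine ⟨fun i => clP D (Q i), ?_, ?_, ?_⟩
  · intro i v
    refine (hAEC F v D (clP D (Q i)) hD (hne _)).2 ⟨act (ED D) (Algebra.ofId F (v.adicCompletion F)) (Q i), ?_⟩
    have h1 : Cls D F (Q i) (clP D (Q i)) := (cls_iff hD _ _).2 (by rw [div_self (hne _)]; exact IsC.one)
    have h2 := hact F (v.adicCompletion F) (Algebra.ofId F (v.adicCompletion F)) (Q i) (clP D (Q i)) h1
    rw [Pool.Agent.Q285.LK.cpl_coe]
    exact h2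
  · rintro i j hij ⟨x, hx⟩
    apply hij
    have hx0 : x ≠ 0 := by
      rintro rfl
      rw [zero_pow (by norm_num)] at hx
      exact div_ne_zero (hne _) (hne _) hx
    obtain ⟨s, hs, hs3⟩ := hsub (Q i) (Q j)
    have h1 : IsC (clP D (Q i - Q j)) := by
      refine ⟨s * x, mul_ne_zero hs hx0, ?_⟩
      have h2 := hne (Q i)
      have h3 := hne (Q j)
      rw [mul_pow, ← hs3, ← hx]
      field_simp
    obtain ⟨R, hR⟩ := theta_of_clP hD hω F _ h1
    have h2 : (QuotientAddGroup.mk (Q i) : Pt (ED D) F ⧸ θ.range) = QuotientAddGroup.mk (Q j) := by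
      rw [QuotientAddGroup.eq]
      refine ⟨-R, ?_⟩
      show -R - imP hD hω F (-R) = -Q i + Q j
      have h3 : -Q i + Q j = -(Q i - Q j) := by abel
      rw [h3, hR, map_neg]
      abel
    rw [hQ, hQ] at h2
    exact e.symm.injective h2
  · intro b hb
    obtain ⟨f, hf, himp⟩ := hECOC F ω D hω0 hD b hb
    have hcob : IsCob (ED D) f := by
      have h3 : (3 : AlgebraicClosure F) ≠ 0 := by
        have : CharZero (AlgebraicClosure F) :=
          charZero_of_injective_algebraMap (algebraMap F (AlgebraicClosure F)).injective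
        norm_num
      let g : shaCoc (ED D) := ⟨f, hf.1⟩
      have h4 : (3 : ℕ) • g = 0 := by
        apply Subtype.ext
        show (3 : ℕ) • f = 0
        funext σ
        exact three_kill h3 hD (f σ) (hf.2 σ)
      have h5 : (3 ^ 1 : ℕ) • (QuotientAddGroup.mk g : Sha (ED D)) = 0 := by
        rw [pow_one]
        show (QuotientAddGroup.mk ((3 : ℕ) • g) : Sha (ED D)) = 0
        rw [h4]
        rfl
      have h6 := hsha 1 (QuotientAddGroup.mk g) h5
      exact (QuotientAddGroup.eq_zero_iff (N := (cob (ED D)).addSubgroupOf (shaCoc (ED D))) g).1 h6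
    obtain ⟨P, hP⟩ := himp hcob
    refine ⟨e (QuotientAddGroup.mk P), ?_⟩
    set i := e (QuotientAddGroup.mk P) with hi
    have h1 : (QuotientAddGroup.mk (Q i) : Pt (ED D) F ⧸ θ.range) = QuotientAddGroup.mk P := by
      rw [hQ, hi, Equiv.symm_apply_apply]
    rw [QuotientAddGroup.eq] at h1
    obtain ⟨R, hR⟩ := h1
    have hR' : R - imP hD hω F R = -Q i + P := hR
    have h2 : IsC (clP D (P - Q i)) := by
      have h3 := clP_theta hD hω F R
      have h4 : P - Q i = -Q i + P := by abel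
      rw [h4, ← hR']
      exact h3
    obtain ⟨s, hs, hs3⟩ := hsub P (Q i)
    obtain ⟨t, ht, ht3⟩ := h2
    obtain ⟨u, hu, hu3⟩ := (cls_iff hD P b).1 hP
    have hP0 := hne P
    have hQ0 := hne (Q i)
    refine ⟨u * t / s, ?_⟩
    have e1 : b = u ^ 3 * clP D P := by
      rw [← hu3]
      field_simp
    have e2 : t ^ 3 * clP D (Q i) = s ^ 3 * clP D P := by
      rw [← ht3, ← hs3]
      field_simp
    have e3 : (u * t / s) ^ 3 = u ^ 3 * t ^ 3 / s ^ 3 := by
      rw [div_pow, mul_pow]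
    have hs0 : s ^ 3 ≠ 0 := pow_ne_zero 3 hs
    show b / clP D (Q i) = (u * t / s) ^ 3
    rw [e3, div_eq_div_iff hQ0 hs0, e1]
    linear_combination (-(u ^ 3)) * e2

end Pool.Agent.Q195.EN
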